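import Pool.Agent.P8H59.An.Stm2

/-!
# Package LIE for S04415: adapted bases of a rational form
-/

set_option autoImplicit false
set_option linter.unusedSectionVars false

open Polynomial Matrix Module
open scoped TensorProduct

namespace Pool.Agent.P8H72.An

open Pool.Agent.P8H59.An

section one

variable {S E : Type} [Fintype S] [Fintype E] [DecidableEq S] [DecidableEq E]
variable {L : Type} [LieRing L] [LieAlgebra ℚ L]

/-- the span of the brackets of `L` -/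
noncomputable def WQ (L : Type) [LieRing L] [LieAlgebra ℚ L] : Submodule ℚ L :=
  Submodule.span ℚ (Set.range fun p : L × L => ⁅p.1, p.2⁆)

/-- the span of the brackets of the real form -/
noncomputable def WR (L : Type) [LieRing L] [LieAlgebra ℚ L] : Submodule ℝ (ℝ ⊗[ℚ] L) :=
  Submodule.span ℝ (Set.range fun p : (ℝ ⊗[ℚ] L) × (ℝ ⊗[ℚ] L) => ⁅p.1, p.2⁆)

theorem tmul_mem_WR {x : L} (hx : x ∈ WQ L) : (1 : ℝ) ⊗ₜ[ℚ] x ∈ WR L := by
  induction hx using Submodule.span_induction with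
  | mem x h =>
    obtain ⟨p, rfl⟩ := h
    refine Submodule.subset_span ⟨((1 : ℝ) ⊗ₜ[ℚ] p.1, (1 : ℝ) ⊗ₜ[ℚ] p.2), ?_⟩
    simp [LieAlgebra.ExtendScalars.bracket_tmul]
  | zero => simp
  | add x y _ _ hx hy => rw [TensorProduct.tmul_add]; exact Submodule.add_mem _ hx hy
  | smul a x _ hx =>
    have : (1 : ℝ) ⊗ₜ[ℚ] (a • x) = (a : ℝ) • ((1 : ℝ) ⊗ₜ[ℚ] x) := by
      rw [TensorProduct.tmul_smul, TensorProduct.smul_tmul', TensorProduct.smul_tmul']
      simp [Rat.smul_def]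
    rw [this]
    exact Submodule.smul_mem _ _ hx

theorem WR_eq (c : Basis (S ⊕ E) ℚ L) (h1 : ∀ x ∈ WQ L, ∀ i, c.repr x (Sum.inl i) = 0)
    (h2 : ∀ j, c (Sum.inr j) ∈ WQ L) :
    WR L = Submodule.span ℝ (Set.range fun j => (c.baseChange ℝ) (Sum.inr j)) := by
  apply le_antisymm
  · have key : ∀ x ∈ WQ L, ∀ r : ℝ, r ⊗ₜ[ℚ] x ∈
        Submodule.span ℝ (Set.range fun j => (c.baseChange ℝ) (Sum.inr j)) := by
      intro x hx r
      have h3 : x = ∑ j, c.repr x (Sum.inr j) • c (Sum.inr j) := by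
        conv_lhs => rw [← c.sum_repr x]
        rw [Fintype.sum_sum_type]
        simp [h1 x hx]
      rw [h3, TensorProduct.tmul_sum]
      refine Submodule.sum_mem _ fun j _ => ?_
      have h4 : r ⊗ₜ[ℚ] (c.repr x (Sum.inr j) • c (Sum.inr j)) =
          (r * (c.repr x (Sum.inr j) : ℝ)) • (c.baseChange ℝ) (Sum.inr j) := by
        rw [Basis.baseChange_apply, TensorProduct.smul_tmul', TensorProduct.tmul_smul,
          TensorProduct.smul_tmul']
        simp [Rat.smul_def, mul_comm]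
      rw [h4]
      exact Submodule.smul_mem _ _ (Submodule.subset_span ⟨j, rfl⟩)
    rw [WR, Submodule.span_le]
    rintro _ ⟨⟨X, Y⟩, rfl⟩
    change ⁅X, Y⁆ ∈ _
    induction X using TensorProduct.induction_on with
    | zero => simp
    | add X X' hX hX' => rw [add_lie]; exact Submodule.add_mem _ hX hX'
    | tmul r x =>
      induction Y using TensorProduct.induction_on with
      | zero => simp
      | add Y Y' hY hY' => rw [lie_add]; exact Submodule.add_mem _ hY hY'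
      | tmul s y =>
        rw [LieAlgebra.ExtendScalars.bracket_tmul]
        exact key _ (Submodule.subset_span ⟨(x, y), rfl⟩) _
  · rw [Submodule.span_le]
    rintro _ ⟨j, rfl⟩
    change (c.baseChange ℝ) (Sum.inr j) ∈ WR L
    rw [Basis.baseChange_apply]
    exact tmul_mem_WR (h2 j)

theorem finrank_WR (c : Basis (S ⊕ E) ℚ L) (h1 : ∀ x ∈ WQ L, ∀ i, c.repr x (Sum.inl i) = 0)
    (h2 : ∀ j, c (Sum.inr j) ∈ WQ L) : finrank ℝ (WR L) = Fintype.card E := by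
  rw [WR_eq c h1 h2]
  refine finrank_span_eq_card ?_
  exact (c.baseChange ℝ).linearIndependent.comp _ Sum.inr_injective

/-- brackets of the real form in coordinates -/
theorem repr_bracket (c : Basis (S ⊕ E) ℚ L) (γ : S → S → E → ℚ)
    (h1 : ∀ i j, ⁅c (Sum.inl i), c (Sum.inl j)⁆ = ∑ e, γ i j e • c (Sum.inr e))
    (h2 : ∀ e k, ⁅c (Sum.inr e), c k⁆ = 0) (X Y : ℝ ⊗[ℚ] L) (e : E) :
    (c.baseChange ℝ).repr ⁅X, Y⁆ (Sum.inr e) =
      ∑ i, ∑ j, (c.baseChange ℝ).repr X (Sum.inl i) * (c.baseChange ℝ).repr Y (Sum.inl j) *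
        (γ i j e : ℝ) := by
  set C := c.baseChange ℝ with hC
  have hC' : ∀ k, C k = (1 : ℝ) ⊗ₜ[ℚ] c k := fun k => Basis.baseChange_apply ..
  have hz : ∀ e (Z : ℝ ⊗[ℚ] L), ⁅C (Sum.inr e), Z⁆ = 0 := by
    intro e Z
    conv_lhs => rw [← C.sum_repr Z]
    rw [lie_sum]
    refine Finset.sum_eq_zero fun k _ => ?_
    rw [lie_smul, hC', hC', LieAlgebra.ExtendScalars.bracket_tmul, h2]
    simp
  have hz' : ∀ e (Z : ℝ ⊗[ℚ] L), ⁅Z, C (Sum.inr e)⁆ = 0 := by
    intro e Z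
    rw [← lie_skew, hz, neg_zero]
  have hX : ∀ X Y : ℝ ⊗[ℚ] L, ⁅X, Y⁆ = ∑ i, ∑ j, (C.repr X (Sum.inl i) * C.repr Y (Sum.inl j)) •
      ⁅C (Sum.inl i), C (Sum.inl j)⁆ := by
    intro X Y
    conv_lhs => rw [← C.sum_repr X, ← C.sum_repr Y]
    rw [Fintype.sum_sum_type, Fintype.sum_sum_type, add_lie, lie_add]
    have e1 : ⁅∑ i, C.repr X (Sum.inr i) • C (Sum.inr i),
        ∑ i, C.repr Y (Sum.inl i) • C (Sum.inl i) + ∑ i, C.repr Y (Sum.inr i) • C (Sum.inr i)⁆ =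
        (0 : ℝ ⊗[ℚ] L) := by
      rw [sum_lie]
      exact Finset.sum_eq_zero fun i _ => by rw [smul_lie, hz, smul_zero]
    have e2 : ⁅∑ i, C.repr X (Sum.inl i) • C (Sum.inl i),
        ∑ i, C.repr Y (Sum.inr i) • C (Sum.inr i)⁆ = (0 : ℝ ⊗[ℚ] L) := by
      rw [lie_sum]
      exact Finset.sum_eq_zero fun i _ => by rw [lie_smul, hz', smul_zero]
    rw [e1, e2, add_zero, add_zero, sum_lie]
    refine Finset.sum_congr rfl fun i _ => ?_
    rw [lie_sum]
    refine Finset.sum_congr rfl fun j _ => ?_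
    rw [smul_lie, lie_smul, smul_smul]
  rw [hX X Y, map_sum, Finsupp.finsetSum_apply]
  refine Finset.sum_congr rfl fun i _ => ?_
  rw [map_sum, Finsupp.finsetSum_apply]
  refine Finset.sum_congr rfl fun j _ => ?_
  rw [map_smul, Finsupp.smul_apply, smul_eq_mul]
  congr 1
  rw [hC', hC', LieAlgebra.ExtendScalars.bracket_tmul, h1, one_mul, hC, Basis.baseChange_repr_tmul]
  simp [Finsupp.single_apply, map_sum, Finsupp.finsetSum_apply]

theorem exists_basis (L : Type) [LieRing L] [LieAlgebra ℚ L] [FiniteDimensional ℚ L] :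
    ∃ (m d : ℕ) (c : Basis (Fin m ⊕ Fin d) ℚ L),
      (∀ x ∈ WQ L, ∀ i, c.repr x (Sum.inl i) = 0) ∧ ∀ j, c (Sum.inr j) ∈ WQ L := by
  obtain ⟨W', hW'⟩ := Submodule.exists_isCompl (WQ L)
  let e := Submodule.prodEquivOfIsCompl W' (WQ L) hW'.symm
  refine ⟨_, _, ((finBasis ℚ W').prod (finBasis ℚ (WQ L))).map e, fun x hx i => ?_, fun j => ?_⟩
  · have h1 : e.symm x = (0, ⟨x, hx⟩) := by
      rw [LinearEquiv.symm_apply_eq]
      simp [e]
    rw [Basis.map_repr]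
    simp [h1]
  · simp [e]

theorem repr_WQ (b : Basis (S ⊕ E) ℚ L)
    (h1 : ∀ i j k, b.repr ⁅b (Sum.inl i), b (Sum.inl j)⁆ (Sum.inl k) = 0)
    (h2 : ∀ e k, ⁅b (Sum.inr e), b k⁆ = 0) : ∀ x ∈ WQ L, ∀ i, b.repr x (Sum.inl i) = 0 := by
  intro x hx i
  have h3 : ∀ k l, b.repr ⁅b k, b l⁆ (Sum.inl i) = 0 := by
    rintro (k | k) (l | l)
    · exact h1 k l i
    · rw [← lie_skew, h2]; simp
    · rw [h2]; simp
    · rw [h2]; simp
  induction hx using Submodule.span_induction with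
  | mem x h =>
    obtain ⟨⟨x, y⟩, rfl⟩ := h
    change b.repr ⁅x, y⁆ (Sum.inl i) = 0
    rw [← b.sum_repr x, ← b.sum_repr y]
    rw [sum_lie, map_sum, Finsupp.finsetSum_apply]
    refine Finset.sum_eq_zero fun k _ => ?_
    rw [lie_sum, map_sum, Finsupp.finsetSum_apply]
    refine Finset.sum_eq_zero fun l _ => ?_
    rw [smul_lie, lie_smul, map_smul, map_smul, Finsupp.smul_apply, Finsupp.smul_apply, h3]
    simp
  | zero => simp
  | add x y _ _ hx hy => simp [hx, hy]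
  | smul a x _ hx => simp [hx]

theorem coord_zero (c : Basis (S ⊕ E) ℚ L) {X : ℝ ⊗[ℚ] L}
    (h : X ∈ Submodule.span ℝ (Set.range fun j => (c.baseChange ℝ) (Sum.inr j))) (i : S) :
    (c.baseChange ℝ).repr X (Sum.inl i) = 0 := by
  induction h using Submodule.span_induction with
  | mem X h =>
    obtain ⟨e, rfl⟩ := h
    change (c.baseChange ℝ).repr ((c.baseChange ℝ) (Sum.inr e)) (Sum.inl i) = 0
    simp only [Basis.repr_self]
    simp
  | zero => simp
  | add X X' _ _ hX hX' => rw [map_add, Finsupp.add_apply, hX, hX', add_zero]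
  | smul a X _ hX => rw [map_smul, Finsupp.smul_apply, hX, smul_zero]

end one

section two

variable {S E : Type} [Fintype S] [Fintype E] [DecidableEq S] [DecidableEq E]
variable {M N : Type} [LieRing M] [LieAlgebra ℚ M] [LieRing N] [LieAlgebra ℚ N]

theorem map_WR (Φ : (ℝ ⊗[ℚ] M) ≃ₗ⁅ℝ⁆ (ℝ ⊗[ℚ] N)) :
    (WR M).map (Φ.toLinearEquiv : (ℝ ⊗[ℚ] M) →ₗ[ℝ] (ℝ ⊗[ℚ] N)) = WR N := by
  rw [WR, Submodule.map_span, WR]
  congr 1
  ext z
  constructor
  · rintro ⟨_, ⟨p, rfl⟩, rfl⟩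
    exact ⟨(Φ p.1, Φ p.2), (LieEquiv.map_lie Φ p.1 p.2).symm⟩
  · rintro ⟨p, rfl⟩
    refine ⟨⁅Φ.symm p.1, Φ.symm p.2⁆, ⟨(Φ.symm p.1, Φ.symm p.2), rfl⟩, ?_⟩
    change Φ ⁅Φ.symm p.1, Φ.symm p.2⁆ = ⁅p.1, p.2⁆
    rw [LieEquiv.map_lie]
    simp

theorem lie_basis [FiniteDimensional ℚ M] (b : Basis (S ⊕ E) ℚ N)
    (hb1 : ∀ x ∈ WQ N, ∀ i, b.repr x (Sum.inl i) = 0) (hb2 : ∀ j, b (Sum.inr j) ∈ WQ N)
    (Φ : (ℝ ⊗[ℚ] M) ≃ₗ⁅ℝ⁆ (ℝ ⊗[ℚ] N)) :
    ∃ c : Basis (S ⊕ E) ℚ M,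
      (∀ x ∈ WQ M, ∀ i, c.repr x (Sum.inl i) = 0) ∧ ∀ j, c (Sum.inr j) ∈ WQ M := by
  obtain ⟨m, d, c, hc1, hc2⟩ := exists_basis M
  have h1 : finrank ℝ (WR M) = d := by rw [finrank_WR c hc1 hc2, Fintype.card_fin]
  have h2 : finrank ℝ (WR N) = Fintype.card E := finrank_WR b hb1 hb2
  have h3 : finrank ℝ (WR N) = finrank ℝ (WR M) := by
    rw [← map_WR Φ]
    exact LinearEquiv.finrank_map_eq Φ.toLinearEquiv _
  have hd : d = Fintype.card E := by rw [← h1, ← h3, h2]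
  have h4 : finrank ℝ (ℝ ⊗[ℚ] M) = m + d := by
    rw [finrank_eq_card_basis (c.baseChange ℝ), Fintype.card_sum, Fintype.card_fin,
      Fintype.card_fin]
  have h5 : finrank ℝ (ℝ ⊗[ℚ] N) = Fintype.card S + Fintype.card E := by
    rw [finrank_eq_card_basis (b.baseChange ℝ), Fintype.card_sum]
  have h6 : finrank ℝ (ℝ ⊗[ℚ] M) = finrank ℝ (ℝ ⊗[ℚ] N) := Φ.toLinearEquiv.finrank_eq
  have hm : m = Fintype.card S := by omega
  subst hm
  subst hd
  let e1 : Fin (Fintype.card S) ≃ S := (Fintype.equivFin S).symm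
  let e2 : Fin (Fintype.card E) ≃ E := (Fintype.equivFin E).symm
  refine ⟨c.reindex (Equiv.sumCongr e1 e2), fun x hx i => ?_, fun j => ?_⟩
  · rw [Basis.repr_reindex_apply]
    exact hc1 x hx _
  · rw [Basis.reindex_apply]
    exact hc2 _

theorem lie_gen [FiniteDimensional ℚ M] (b : Basis (S ⊕ E) ℚ N) (δ : S → S → E → ℚ)
    (h1 : ∀ i j, ⁅b (Sum.inl i), b (Sum.inl j)⁆ = ∑ e, δ i j e • b (Sum.inr e))
    (h2 : ∀ e k, ⁅b (Sum.inr e), b k⁆ = 0)
    (h3 : ∀ e, b (Sum.inr e) ∈ WQ N)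
    (Φ : (ℝ ⊗[ℚ] M) ≃ₗ⁅ℝ⁆ (ℝ ⊗[ℚ] N)) :
    ∃ (c : Basis (S ⊕ E) ℚ M) (γ : S → S → E → ℚ)
      (P P' : Matrix S S ℝ) (Q Q' : Matrix E E ℝ),
      (∀ i j, ⁅c (Sum.inl i), c (Sum.inl j)⁆ = ∑ e, γ i j e • c (Sum.inr e)) ∧
      (∀ e k, ⁅c (Sum.inr e), c k⁆ = 0) ∧
      Submodule.span ℚ (Set.range fun ij : S × S => γ ij.1 ij.2) = ⊤ ∧
      P' * P = 1 ∧ P * P' = 1 ∧ Q' * Q = 1 ∧ Q * Q' = 1 ∧
      IsHm (bc (algebraMap ℚ ℝ) γ) (bc (algebraMap ℚ ℝ) δ) P Q := by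
  have hb1 : ∀ x ∈ WQ N, ∀ i, b.repr x (Sum.inl i) = 0 := by
    refine repr_WQ b (fun i j k => ?_) h2
    rw [h1]
    simp [map_sum, Finsupp.finsetSum_apply]
  obtain ⟨c, hc1, hc2⟩ := lie_basis b hb1 h3 Φ
  set B := b.baseChange ℝ with hB
  set C := c.baseChange ℝ with hC
  have hB' : ∀ k, B k = (1 : ℝ) ⊗ₜ[ℚ] b k := fun k => Basis.baseChange_apply ..
  have hC' : ∀ k, C k = (1 : ℝ) ⊗ₜ[ℚ] c k := fun k => Basis.baseChange_apply ..
  -- the bracket span is central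
  have hWN : ∀ X ∈ WR N, ∀ Y : ℝ ⊗[ℚ] N, ⁅X, Y⁆ = 0 := by
    intro X hX Y
    rw [WR_eq b hb1 h3] at hX
    induction hX using Submodule.span_induction with
    | mem X h =>
      obtain ⟨e, rfl⟩ := h
      change ⁅B (Sum.inr e), Y⁆ = 0
      rw [← B.sum_repr Y, lie_sum]
      refine Finset.sum_eq_zero fun k _ => ?_
      rw [lie_smul, hB', hB', LieAlgebra.ExtendScalars.bracket_tmul, h2]
      simp
    | zero => simp
    | add X X' _ _ hX hX' => rw [add_lie, hX, hX', add_zero]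
    | smul a X _ hX => rw [smul_lie, hX, smul_zero]
  have hΦW : ∀ X ∈ WR M, Φ X ∈ WR N := by
    intro X hX
    rw [← map_WR Φ]
    exact ⟨X, hX, rfl⟩
  have hΦW' : ∀ X ∈ WR N, Φ.symm X ∈ WR M := by
    intro X hX
    rw [← map_WR Φ] at hX
    obtain ⟨Y, hY, rfl⟩ := hX
    change Φ.symm (Φ Y) ∈ WR M
    simpa using hY
  have hc3 : ∀ e k, ⁅c (Sum.inr e), c k⁆ = 0 := by
    intro e k
    have h4 : ⁅C (Sum.inr e), C k⁆ = 0 := by
      have h5 : Φ ⁅C (Sum.inr e), C k⁆ = 0 := by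
        rw [LieEquiv.map_lie]
        refine hWN _ (hΦW _ ?_) _
        rw [hC']
        exact tmul_mem_WR (hc2 e)
      have h6 : Φ.toLinearEquiv ⁅C (Sum.inr e), C k⁆ = 0 := h5
      exact (LinearEquiv.map_eq_zero_iff _).1 h6
    rw [hC', hC', LieAlgebra.ExtendScalars.bracket_tmul, one_mul] at h4
    apply c.repr.injective
    ext l
    have h5 := congrArg (fun z => C.repr z l) h4
    simp only [hC, Basis.baseChange_repr_tmul, map_zero, Finsupp.zero_apply] at h5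
    simpa using h5
  let γ : S → S → E → ℚ := fun i j e => c.repr ⁅c (Sum.inl i), c (Sum.inl j)⁆ (Sum.inr e)
  have hγ : ∀ i j, ⁅c (Sum.inl i), c (Sum.inl j)⁆ = ∑ e, γ i j e • c (Sum.inr e) := by
    intro i j
    conv_lhs => rw [← c.sum_repr ⁅c (Sum.inl i), c (Sum.inl j)⁆]
    rw [Fintype.sum_sum_type]
    rw [Finset.sum_eq_zero, zero_add]
    intro k _
    rw [hc1 _ (Submodule.subset_span ⟨(_, _), rfl⟩), zero_smul]
  -- the matrices
  let T : Matrix (S ⊕ E) (S ⊕ E) ℝ := LinearMap.toMatrix C B Φ.toLinearEquiv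
  let T' : Matrix (S ⊕ E) (S ⊕ E) ℝ := LinearMap.toMatrix B C Φ.toLinearEquiv.symm
  have hT : T * T' = 1 := by
    rw [← LinearMap.toMatrix_comp]
    simp
  have hT' : T' * T = 1 := by
    rw [← LinearMap.toMatrix_comp]
    simp
  have hTb : T.toBlocks₁₂ = 0 := by
    ext i e
    change LinearMap.toMatrix C B (Φ.toLinearEquiv : (ℝ ⊗[ℚ] M) →ₗ[ℝ] (ℝ ⊗[ℚ] N)) (Sum.inl i)
      (Sum.inr e) = 0
    rw [LinearMap.toMatrix_apply]
    have h4 : Φ (C (Sum.inr e)) ∈ WR N := by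
      apply hΦW
      rw [hC']
      exact tmul_mem_WR (hc2 e)
    rw [WR_eq b hb1 h3] at h4
    exact coord_zero b h4 i
  have hTb' : T'.toBlocks₁₂ = 0 := by
    ext i e
    change LinearMap.toMatrix B C (Φ.toLinearEquiv.symm : (ℝ ⊗[ℚ] N) →ₗ[ℝ] (ℝ ⊗[ℚ] M))
      (Sum.inl i) (Sum.inr e) = 0
    rw [LinearMap.toMatrix_apply]
    have h4 : Φ.symm (B (Sum.inr e)) ∈ WR M := by
      apply hΦW'
      rw [hB']
      exact tmul_mem_WR (h3 e)
    rw [WR_eq c hc1 hc2] at h4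
    exact coord_zero c h4 i
  rw [← fromBlocks_toBlocks T, ← fromBlocks_toBlocks T', hTb, hTb', fromBlocks_multiply,
    ← fromBlocks_one, fromBlocks_inj] at hT hT'
  simp only [add_zero, zero_add, Matrix.zero_mul, Matrix.mul_zero] at hT hT'
  refine ⟨c, γ, T.toBlocks₁₁, T'.toBlocks₁₁, T.toBlocks₂₂, T'.toBlocks₂₂, hγ, hc3, ?_,
    hT'.1, hT.1, hT'.2.2.2, hT.2.2.2, ?_⟩
  · -- the span
    rw [eq_top_iff]
    let ρ : M →ₗ[ℚ] (E → ℚ) := LinearMap.pi fun e => c.coord (Sum.inr e)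
    have h4 : ∀ x ∈ WQ M, ρ x ∈ Submodule.span ℚ (Set.range fun ij : S × S => γ ij.1 ij.2) := by
      intro x hx
      induction hx using Submodule.span_induction with
      | mem x h =>
        obtain ⟨⟨x, y⟩, rfl⟩ := h
        change ρ ⁅x, y⁆ ∈ _
        rw [← c.sum_repr x, ← c.sum_repr y, sum_lie, map_sum]
        refine Submodule.sum_mem _ fun k _ => ?_
        rw [lie_sum, map_sum]
        refine Submodule.sum_mem _ fun l _ => ?_
        rw [smul_lie, lie_smul, map_smul, map_smul]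
        refine Submodule.smul_mem _ _ (Submodule.smul_mem _ _ ?_)
        rcases k with k | k
        · rcases l with l | l
          · exact Submodule.subset_span ⟨(k, l), rfl⟩
          · rw [← lie_skew, hc3]; simp
        · rw [hc3]; simp
      | zero => simp
      | add x y _ _ hx hy => rw [map_add]; exact Submodule.add_mem _ hx hy
      | smul a x _ hx => rw [map_smul]; exact Submodule.smul_mem _ _ hx
    intro f _
    rw [pi_decomp f]
    refine Submodule.sum_mem _ fun e _ => Submodule.smul_mem _ _ ?_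
    have h5 := h4 _ (hc2 e)
    have h6 : ρ (c (Sum.inr e)) = Pi.single e 1 := by
      ext e'
      simp [ρ, Finsupp.single_apply, Pi.single_apply, eq_comm]
    rwa [h6] at h5
  · -- the homomorphism
    rw [isHm_iff]
    intro i j e
    have h4 : Φ ⁅C (Sum.inl i), C (Sum.inl j)⁆ = ⁅Φ (C (Sum.inl i)), Φ (C (Sum.inl j))⁆ :=
      LieEquiv.map_lie ..
    have h5 := congrArg (fun z => B.repr z (Sum.inr e)) h4
    change B.repr (Φ ⁅C (Sum.inl i), C (Sum.inl j)⁆) (Sum.inr e) =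
      B.repr ⁅Φ (C (Sum.inl i)), Φ (C (Sum.inl j))⁆ (Sum.inr e) at h5
    rw [hB, repr_bracket b δ h1 h2, ← hB] at h5
    have h6 : ⁅C (Sum.inl i), C (Sum.inl j)⁆ = ∑ f, (γ i j f : ℝ) • C (Sum.inr f) := by
      rw [hC', hC', LieAlgebra.ExtendScalars.bracket_tmul, hγ, one_mul, TensorProduct.tmul_sum]
      refine Finset.sum_congr rfl fun f _ => ?_
      rw [hC', TensorProduct.tmul_smul, TensorProduct.smul_tmul', TensorProduct.smul_tmul']
      simp [Rat.smul_def]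
    have h7 : Φ ⁅C (Sum.inl i), C (Sum.inl j)⁆ = ∑ f, (γ i j f : ℝ) • Φ (C (Sum.inr f)) := by
      rw [h6]
      change Φ.toLinearEquiv (∑ f, (γ i j f : ℝ) • C (Sum.inr f)) = _
      rw [map_sum]
      exact Finset.sum_congr rfl fun f _ => map_smul _ _ _
    rw [h7, map_sum, Finsupp.finsetSum_apply] at h5
    have hP : ∀ l i, T.toBlocks₁₁ l i = B.repr (Φ (C (Sum.inl i))) (Sum.inl l) :=
      fun l i => LinearMap.toMatrix_apply ..
    have hQ : ∀ e f, T.toBlocks₂₂ e f = B.repr (Φ (C (Sum.inr f))) (Sum.inr e) :=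
      fun l i => LinearMap.toMatrix_apply ..
    simp only [hP, hQ, bc]
    refine Eq.trans (Finset.sum_congr rfl fun f _ => ?_) h5
    rw [map_smul, Finsupp.smul_apply, smul_eq_mul, mul_comm]
    rfl

end two

theorem gam_symm {n : ℕ} (G : SimpleGraph (Fin n)) {i j : Fin n} (h : i ≠ j) (e : G.edgeSet) :
    gam G j i e = - gam G i j e := by
  unfold gam
  rw [Sym2.eq_swap]
  rcases lt_or_gt_of_ne h with h1 | h1
  · split_ifs <;> first | rfl | simp | omega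
  · split_ifs <;> first | rfl | simp | omega

theorem lie : S_LIE := by
  intro n G _ _ N _ _ _ b hb1 hb2 hb3 M _ _ _ ⟨Φ⟩
  have key : ∀ i j : Fin n, G.Adj i j → i < j →
      ∑ e, gam G i j e • b (Sum.inr e) = ⁅b (Sum.inl i), b (Sum.inl j)⁆ := by
    intro i j h hij
    rw [hb1 i j h hij, Finset.sum_eq_single (⟨s(i, j), G.mem_edgeSet.mpr h⟩ : G.edgeSet)]
    · simp [gam, hij]
    · intro e _ he
      have : s(i, j) ≠ e.1 := fun h' => he (Subtype.ext h'.symm)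
      simp [gam, this]
    · intro h'
      exact absurd (Finset.mem_univ _) h'
  refine lie_gen b (gam G) (fun i j => ?_) hb3 (fun e => ?_) Φ
  · by_cases h : G.Adj i j
    · rcases lt_or_gt_of_ne h.ne with h1 | h1
      · exact (key i j h h1).symm
      · rw [← lie_skew, ← key j i h.symm h1, ← Finset.sum_neg_distrib]
        refine Finset.sum_congr rfl fun e _ => ?_
        rw [gam_symm G h1.ne', neg_smul]
        simp
    · rw [hb2 i j h]
      symm
      refine Finset.sum_eq_zero fun e _ => ?_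
      have : s(i, j) ≠ e.1 := fun h' => h (G.mem_edgeSet.1 (h' ▸ e.2))
      simp [gam, this]
  · obtain ⟨e, he⟩ := e
    induction e using Sym2.ind with
    | _ i j =>
      have h : G.Adj i j := he
      rcases lt_or_gt_of_ne h.ne with h1 | h1
      · rw [← hb1 i j h h1]
        exact Submodule.subset_span ⟨(_, _), rfl⟩
      · have h2 : (⟨s(i, j), he⟩ : G.edgeSet) = ⟨s(j, i), G.mem_edgeSet.mpr h.symm⟩ :=
          Subtype.ext Sym2.eq_swap
        rw [h2, ← hb1 j i h.symm h1]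
        exact Submodule.subset_span ⟨(_, _), rfl⟩

end Pool.Agent.P8H72.An
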